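import Pool.Agent.TH669.TF.Final

set_option autoImplicit false

/-!
# Twin-free graphs with few automorphism orbits: almost all orders

Every prime dividing the order of the automorphism group of a twin-free graph of rank `r` is at most
`r + 1`. Therefore the sizes of the orbits of ANY automorphism group on the vertices (or on the
edges) are `(r + 1)`-smooth, and for all orbit sizes outside a thin set of integers the bound of the
graph form of the log-rank conjecture holds. Nothing is assumed about the structure of the group.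
-/

namespace Pool.Agent.Results.MP_3bd889_lc.AlmostAllOrders

/-- No two nonadjacent vertices have the same neighbours. -/
def TwinFree {V : Type} (G : SimpleGraph V) : Prop :=
  ∀ u v : V, u ≠ v → ¬ G.Adj u v → G.neighborSet u ≠ G.neighborSet v

/-- The automorphism group of `G` is transitive on the edges of `G`. -/
def EdgeTransitive {V : Type} (G : SimpleGraph V) : Prop :=
  ∀ e ∈ G.edgeSet, ∀ f ∈ G.edgeSet, ∃ φ : G ≃g G, Sym2.map φ e = f

open Classical in
/-- The number of elements of `E` in `[1, x]`. -/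
noncomputable def count (E : Set ℕ) (x : ℕ) : ℕ :=
  ((Finset.Ioc 0 x).filter (fun n => n ∈ E)).card

/-- `E` is an exceptional set for the bound `b`: for every twin-free graph `G` of rank `r > 1`,

* if `Γ` is any group of automorphisms of `G` with `t` orbits on the vertices, none of which has its
  size in `E`, then `log χ(G) ≤ log |V| ≤ log t + b r` (in particular `log χ(G) ≤ log |V| ≤ b r` for
  every vertex-transitive `G` whose number of vertices is not in `E`);
* if `G` is connected and edge-transitive and its number of edges is not in `E`, then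
  `log χ(G) ≤ log |V| ≤ log 2 + b r`. -/
def Exceptional (E : Set ℕ) (b : ℝ → ℝ) : Prop :=
  ∀ (V : Type) [Fintype V] (G : SimpleGraph V) [DecidableRel G.Adj], TwinFree G →
    1 < (G.adjMatrix ℝ).rank →
    (∀ Γ : Subgroup (G ≃g G), (∀ v : V, Nat.card (MulAction.orbit Γ v) ∉ E) →
      Real.log (G.chromaticNumber.toNat : ℝ) ≤ Real.log (Fintype.card V : ℝ) ∧
      Real.log (Fintype.card V : ℝ) ≤
        Real.log (Nat.card (MulAction.orbitRel.Quotient Γ V) : ℝ) + b (G.adjMatrix ℝ).rank) ∧
    (G.Connected → EdgeTransitive G → Nat.card G.edgeSet ∉ E →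
      Real.log (G.chromaticNumber.toNat : ℝ) ≤ Real.log (Fintype.card V : ℝ) ∧
      Real.log (Fintype.card V : ℝ) ≤ Real.log 2 + b (G.adjMatrix ℝ).rank)

theorem exceptional_of (E : Set ℕ) (b : ℝ → ℝ) (h : Pool.Agent.TH669.TF.DivBound E b) :
    Exceptional E b := by
  intro V _ G _ hG hr
  exact ⟨fun Γ hΓ => ⟨Pool.Agent.TH669.TF.log_chrom_le G,
      Pool.Agent.TH669.TF.orbits_bound E b h G hG hr Γ hΓ⟩,
    fun hc hE hn => ⟨Pool.Agent.TH669.TF.log_chrom_le G,
      Pool.Agent.TH669.TF.edge_bound E b h G hG hr hc hE hn⟩⟩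

/-- **Chromatic number and rank for symmetric graphs of almost all orders.**
(1) Every prime which divides the number of automorphisms of a twin-free graph of rank `r` is at most
`r + 1`.
(2) For every `η > 0` there are a constant `C` and a set `E` with at most `η x` elements up to `x`,
for all `x`, such that outside `E` (see `Exceptional`) `log χ(G) ≤ C log r`.
(3) For every `c > 2` there is a set `E` with at most `x exp (-(log x) ^ (1 - 1 / c) / 2)` elements up
to `x`, for all large `x`, such that outside `E` `log χ(G) ≤ (2 log r) ^ c`.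
(4) For every `A ≥ 2` there is a set `E` with at most `x ^ (1 - 1 / A + ε)` elements up to `x`, for
all `ε > 0` and all large `x`, such that outside `E` `log χ(G) ≤ (r + 1) ^ (1 / A)`. -/
theorem result :
    (∀ (V : Type) [Fintype V] (G : SimpleGraph V) [DecidableRel G.Adj], TwinFree G →
      ∀ p : ℕ, p.Prime → p ∣ Nat.card (G ≃g G) → p ≤ (G.adjMatrix ℝ).rank + 1) ∧
    (∀ η : ℝ, 0 < η → ∃ (C : ℝ) (E : Set ℕ), (∀ x : ℕ, (count E x : ℝ) ≤ η * x) ∧
      Exceptional E (fun r => C * Real.log r)) ∧
    (∀ c : ℝ, 2 < c → ∃ E : Set ℕ, (∃ x0 : ℕ, ∀ x : ℕ, x0 ≤ x → (count E x : ℝ) ≤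
        x * Real.exp (-(Real.log x) ^ (1 - 1 / c) / 2)) ∧
      Exceptional E (fun r => (2 * Real.log r) ^ c)) ∧
    (∀ A : ℝ, 2 ≤ A → ∃ E : Set ℕ, (∀ ε : ℝ, 0 < ε → ∃ x0 : ℕ, ∀ x : ℕ, x0 ≤ x →
        (count E x : ℝ) ≤ (x : ℝ) ^ (1 - 1 / A + ε)) ∧
      Exceptional E (fun r => (r + 1) ^ (1 / A))) := by
  refine ⟨?_, ?_, ?_, ?_⟩
  · intro V _ G _ hG p hp hd
    exact Pool.Agent.TH669.TF.prime_le_card G hG p hp hd
  · intro η hη
    obtain ⟨C, E, h1, h2⟩ := Pool.Agent.TH669.TF.poly η hη
    exact ⟨C, E, h1, exceptional_of E _ h2⟩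
  · intro c hc
    obtain ⟨E, h1, h2⟩ := Pool.Agent.TH669.TF.quasi c hc
    exact ⟨E, h1, exceptional_of E _ h2⟩
  · intro A hA
    obtain ⟨E, h1, h2⟩ := Pool.Agent.TH669.TF.power A hA
    exact ⟨E, h1, exceptional_of E _ h2⟩

end Pool.Agent.Results.MP_3bd889_lc.AlmostAllOrders
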