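import Pool.Agent.TH410.BP.Main

set_option autoImplicit false

/-!
# Chromatic number and rank of Boolean products of graphs

In a Boolean product of finite graphs `G i` the adjacency of `x` and `y` is an arbitrary Boolean
function of the adjacencies of `x i` and `y i` in the `G i` (value `0` at `0`, so that there are
no loops). If every factor has three vertices with pairwise different neighbourhoods, that is if no
factor is edgeless or complete bipartite, then
`log χ(P) ≤ (log rank P) ^ 3 * max log χ(G i)`; so the inequality of Q1 passes from the factors to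
all Boolean products, with the exponent `c + 3` in place of `c` and the same constant.
-/

namespace Pool.Agent.Results.MP_3bd889_lc.BooleanProducts

open Classical in
/-- The Boolean product of the graphs `G i` by `f`: the vertices are all `x = (x i)`, and `x`, `y` are
adjacent iff `f` is true at the Boolean vector whose `i`-th entry says whether `x i` and `y i` are
adjacent in `G i`. -/
noncomputable def booleanProduct {I : Type} [Fintype I] [DecidableEq I] {U : I → Type}
    [∀ i, Fintype (U i)] (f : (I → Bool) → Bool) (hf : f (fun _ => false) = false)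
    (G : ∀ i, SimpleGraph (U i)) : SimpleGraph (∀ i, U i) where
  Adj x y := f (fun i => decide ((G i).Adj (x i) (y i))) = true
  symm := (TH410.BP.prodGraph f hf G).symm
  loopless := (TH410.BP.prodGraph f hf G).loopless

/-- Three vertices with pairwise different neighbourhoods (equivalently: `G` is neither edgeless nor
complete bipartite). -/
def ThreeNeighbourhoods {W : Type} (G : SimpleGraph W) : Prop :=
  ∃ a : Fin 3 → W, Function.Injective fun j => G.neighborSet (a j)

open Classical in
/-- `log₂ χ(G)`. -/
noncomputable def logChi {W : Type} (G : SimpleGraph W) : ℝ :=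
  Real.logb 2 (G.chromaticNumber.toNat : ℝ)

open Classical in
/-- `log₂` of the real rank of the adjacency matrix. -/
noncomputable def logRank {W : Type} [Fintype W] (G : SimpleGraph W) : ℝ :=
  Real.logb 2 ((G.adjMatrix ℝ).rank : ℝ)

/-- For all finite index types `I`, all finite graphs `G i` with three vertices of pairwise different
neighbourhoods and all `f : {0,1}^I → {0,1}` with `f(0) = 0`, the Boolean product `P` satisfies:
(1) `log₂ χ(P) ≤ (log₂ rank P)^3 L` if `log₂ χ(G i) ≤ L` for all `i`;
(2) `log₂ χ(P) ≤ K (log₂ rank P)^(c+3)` if `log₂ χ(G i) ≤ K (log₂ rank G i)^c` for all `i`.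
(3) Let `q ≥ 3`. Every graph on `[q]^I` in which the adjacency of `x` and `y` depends only on the set
of coordinates in which they differ satisfies `log₂ χ ≤ (log₂ rank)^4`. -/
theorem result :
    (∀ (I : Type) [Fintype I] [DecidableEq I] (U : I → Type) [∀ i, Fintype (U i)]
      (f : (I → Bool) → Bool) (hf : f (fun _ => false) = false) (G : ∀ i, SimpleGraph (U i)),
      (∀ i, ThreeNeighbourhoods (G i)) →
      (∀ L : ℝ, 0 ≤ L → (∀ i, logChi (G i) ≤ L) →
        logChi (booleanProduct f hf G) ≤ logRank (booleanProduct f hf G) ^ 3 * L) ∧
      (∀ K c : ℝ, 0 ≤ K → 0 ≤ c → (∀ i, logChi (G i) ≤ K * logRank (G i) ^ c) →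
        logChi (booleanProduct f hf G) ≤ K * logRank (booleanProduct f hf G) ^ (c + 3))) ∧
    (∀ (q : ℕ), 3 ≤ q → ∀ (I : Type) [Fintype I] [DecidableEq I] (G : SimpleGraph (I → Fin q)),
      (∀ x y x' y' : I → Fin q, (∀ i, x i = y i ↔ x' i = y' i) → (G.Adj x y ↔ G.Adj x' y')) →
      logChi G ≤ logRank G ^ 4) := by
  classical
  refine ⟨fun I _ _ U _ f hf G hG => ⟨fun L hL h => ?_, fun K c hK hc h => ?_⟩, ?_⟩
  · exact TH410.BP.bound f hf G hG L hL fun i _ => h i
  · exact TH410.BP.closure_bound f hf G hG K c hK hc h
  · intro q hq I _ _ G hG
    let u : Fin q := ⟨0, by omega⟩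
    let v : Fin q := ⟨1, by omega⟩
    have huv : u ≠ v := by
      intro h
      exact absurd (congrArg Fin.val h) Nat.zero_ne_one
    let f : (I → Bool) → Bool := fun z => decide (G.Adj (fun _ => u) (fun i => if z i then v else u))
    have hf : f (fun _ => false) = false := by
      simp only [f]
      rw [decide_eq_false_iff_not]
      simp
    have hG' : G = TH410.BP.prodGraph f hf (fun _ : I => (⊤ : SimpleGraph (Fin q))) := by
      ext x y
      have e1 : (fun i => @decide ((⊤ : SimpleGraph (Fin q)).Adj (x i) (y i))
          (Classical.propDecidable _)) = fun i => !decide (x i = y i) := by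
        funext i
        by_cases h : x i = y i
        · simp [h]
        · simp [h]
      have e2 : (TH410.BP.prodGraph f hf (fun _ : I => (⊤ : SimpleGraph (Fin q)))).Adj x y ↔
          f (fun i => !decide (x i = y i)) = true := by
        rw [← e1]
        exact Iff.rfl
      rw [e2]
      simp only [f]
      rw [decide_eq_true_iff]
      apply hG
      intro i
      by_cases h : x i = y i
      · simp [h]
      · simp [h, huv]
    have h1 := TH410.BP.hamming hq f hf
    rw [← hG'] at h1
    exact h1

end Pool.Agent.Results.MP_3bd889_lc.BooleanProducts
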