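import Pool.Agent.TH668.LR.Final

set_option autoImplicit false

namespace Pool.Agent.Results.MP_3bd889_lc.LayeredSymmetry

open Pool.Agent.TH668.LR

/-- **Chromatic number and rank for graphs with layers of symmetries.**
Let `A 0, ..., A (l-1)` be subgroups of the automorphism group of a finite graph `G`. Each of them
is either abelian with `d` generators, or a homomorphic image of a direct product (with any number
of factors) of finite perfect groups `H` such that every nontrivial complex matrix representation of
`H` has degree `n` with `log₂ |H| ≤ κ (log₂ n)^s`. Suppose that there are `t` vertices `b j` such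
that every vertex is of the form `a₀ a₁ ⋯ a_{l-1} (b j)` with `a_i ∈ A i` (the product set
`A 0 ⋯ A (l-1)` need not be a group). Then, `r` being the real rank of the adjacency matrix,
`log₂ χ(G) ≤ (2 l (log₂ r + 1))^4 (κ (log₂ r)^s + 2 d (log₂ r + 1) + 1) + 2 (log₂ t + 1)`.

For instance, `d = 1` and `κ = 0` give: if a group with a subnormal series of length `l` with cyclic
factors (more generally a group which is the product set of `l` cyclic subgroups) acts on `G` with
`t` orbits of vertices, then `log₂ χ(G) ≤ 48 l^4 (log₂ r + 1)^5 + 2 (log₂ t + 1)`. -/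
theorem result (l d s t : ℕ) (κ : ℝ) (hκ : 0 ≤ κ) (V : Type) [Fintype V] (G : SimpleGraph V)
    [DecidableRel G.Adj] (A : Fin l → Subgroup (G ≃g G))
    (hA : ∀ i, AbelianRank d (A i) ∨ QuasirandomProduct κ s (A i)) (b : Fin t → V)
    (hV : ∀ v, ∃ (j : Fin t) (a : ∀ i, A i), v = (List.ofFn fun i => (a i : G ≃g G)).prod (b j)) :
    Real.logb 2 (G.chromaticNumber.toNat : ℝ) ≤
      (2 * l * (Real.logb 2 ((G.adjMatrix ℝ).rank : ℝ) + 1)) ^ 4 *
        (κ * (Real.logb 2 ((G.adjMatrix ℝ).rank : ℝ)) ^ s +
          2 * d * (Real.logb 2 ((G.adjMatrix ℝ).rank : ℝ) + 1) + 1) +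
        2 * (Real.logb 2 t + 1) :=
  final_graph G d s κ hκ l A hA t b hV

end Pool.Agent.Results.MP_3bd889_lc.LayeredSymmetry
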