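import Pool.Agent.TH815.LS5

/-!
# Omitted induced subgraphs with exponent one

A graph `H` is tame if the chromatic number of the graphs without induced `H` is bounded by a power
of their rank.  Tame graphs are closed under replacing a vertex by a tame graph, and all graphs
with at most four vertices are tame.
-/

set_option autoImplicit false

namespace Pool.Agent.Results.MP_3bd889_lc.SubstitutionClosure

open Finset Pool.TH815.LS

/-- The rank over the reals of the adjacency matrix of `G`. -/
noncomputable def rk {V : Type} [Fintype V] (G : SimpleGraph V) : ℕ := by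
  classical exact (G.adjMatrix ℝ).rank

/-- `H` is tame: `χ(G) ≤ rank(G) ^ c`, with a constant `c`, for all finite graphs `G` with at least
one edge that have no induced subgraph isomorphic to `H`. -/
def Tame {ι : Type} (H : SimpleGraph ι) : Prop :=
  ∃ c : ℕ, ∀ (V : Type) [Fintype V] (G : SimpleGraph V), G ≠ ⊥ → IsEmpty (H ↪g G) →
    G.chromaticNumber ≤ (rk G ^ c : ℕ)

/-- The graph obtained from `H` by replacing the vertex `v` by the graph `F`: its vertices are the
vertices of `H` other than `v` and the vertices of `F`, and every vertex of `F` is adjacent to the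
neighbours of `v`. -/
def replaceVertex {ι κ : Type} (H : SimpleGraph ι) (v : ι) (F : SimpleGraph κ) :
    SimpleGraph ({i : ι // i ≠ v} ⊕ κ) where
  Adj x y := match x, y with
    | .inl i, .inl j => H.Adj i j
    | .inl i, .inr _ => H.Adj i v
    | .inr _, .inl j => H.Adj v j
    | .inr a, .inr b => F.Adj a b
  symm := ⟨by
    rintro (i | a) (j | b) h
    · exact H.symm.symm _ _ h
    · exact H.symm.symm _ _ h
    · exact H.symm.symm _ _ h
    · exact F.symm.symm _ _ h⟩
  loopless := ⟨by
    rintro (i | a) h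
    · exact H.loopless.irrefl _ h
    · exact F.loopless.irrefl _ h⟩

theorem two_le_rk {V : Type} [Fintype V] (G : SimpleGraph V) (h : G ≠ ⊥) : 2 ≤ rk G := by
  classical
  have : ∃ u v, G.Adj u v := by
    by_contra hcon
    push Not at hcon
    apply h
    ext u v
    simp [hcon u v]
  obtain ⟨u, v, huv⟩ := this
  have h1 : ((G.adjMatrix ℝ).submatrix ![u, v] ![u, v]).rank ≤ (G.adjMatrix ℝ).rank :=
    Matrix.rank_submatrix_le _ _ _
  have h2 : (G.adjMatrix ℝ).submatrix ![u, v] ![u, v] = !![0, 1; 1, 0] := by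
    ext i j
    fin_cases i <;> fin_cases j <;> simp [SimpleGraph.adjMatrix_apply, huv, huv.symm]
  have h3 : (!![0, 1; 1, 0] : Matrix (Fin 2) (Fin 2) ℝ).rank = 2 := by
    rw [Matrix.rank_of_isUnit]
    · simp
    · rw [Matrix.isUnit_iff_isUnit_det, Matrix.det_fin_two_of]
      norm_num
  unfold rk
  convert h1.trans' ?_
  rw [h2, h3]

theorem rk_eq {V : Type} [Fintype V] [DecidableEq V] (G : SimpleGraph V) [DecidableRel G.Adj] :
    rk G = (G.adjMatrix ℝ).rank := by
  unfold rk
  congr

theorem tame_of_ph {ι : Type} (H : SimpleGraph ι) (c : ℕ) (hP : PH H c) : Tame H := by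
  classical
  refine ⟨c + 2, fun V _ G hG hemp => ?_⟩
  exact (colorable_of_ph H c hP G (rk G) (two_le_rk G hG) (rk_eq G).ge hemp).chromaticNumber_le

theorem ph_of_tame {ι : Type} (H : SimpleGraph ι) (h : Tame H) : ∃ c, PH H c := by
  classical
  obtain ⟨c, hc⟩ := h
  refine ⟨c, ?_⟩
  intro V _ _ G _ r hr2 hr hemp
  by_cases hG : G = ⊥
  · refine ⟨univ, ?_, ?_⟩
    · intro u _ v _
      rw [hG]
      simp
    · rw [card_univ]
      exact Nat.le_mul_of_pos_left _ (by positivity)
  · have h1 := hc V G hG hemp
    have h2 : G.Colorable (rk G ^ c) :=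
      SimpleGraph.chromaticNumber_le_iff_colorable.mp h1
    obtain ⟨I, hI, hIc⟩ := indep_of_colorable G _ h2
    refine ⟨I, hI, hIc.trans ?_⟩
    apply Nat.mul_le_mul_right
    apply Nat.pow_le_pow_left
    rw [rk_eq]
    exact hr

theorem result :
    -- replacing a vertex of a tame graph by a tame graph
    (∀ (ι κ : Type) [Fintype ι] [Fintype κ] [Nonempty κ] (H : SimpleGraph ι) (v : ι)
      (F : SimpleGraph κ), Tame H → Tame F → Tame (replaceVertex H v F)) ∧
    -- small graphs
    (∀ (ι : Type) [Fintype ι] (H : SimpleGraph ι), Fintype.card ι ≤ 4 → Tame H) ∧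
    -- graphs without an induced path on four vertices (cographs)
    (∀ (ι : Type) [Fintype ι] (H : SimpleGraph ι),
      IsEmpty (SimpleGraph.pathGraph 4 ↪g H) → Tame H) := by
  classical
  refine ⟨?_, ?_, ?_⟩
  · intro ι κ _ _ _ H v F hH hF
    obtain ⟨c₁, h₁⟩ := ph_of_tame H hH
    obtain ⟨c₂, h₂⟩ := ph_of_tame F hF
    obtain ⟨c, h⟩ := ph_repl H v F c₁ c₂ h₁ h₂
    exact tame_of_ph (repl H v F) c h
  · intro ι _ H h
    obtain ⟨c, hc⟩ := ph_of_card_le_four ι H h
    exact tame_of_ph H c hc
  · intro ι _ H h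
    obtain ⟨c, hc⟩ := ph_of_p4free _ ι H le_rfl (p4free_of_isEmpty H h)
    exact tame_of_ph H c hc

end Pool.Agent.Results.MP_3bd889_lc.SubstitutionClosure
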